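import Pool.Agent.helper91.ADV.Defs
import Pool.Agent.helper69.LN.TSpec
import Pool.Agent.helper55.NT.Sim

/-!
# MP_069684_lc, project adv, block U: the upper side of the advantage theorem

RULES. Row `adv:X`: file `Pool/Agent/<seat>/ADV/X.lean`, `import Pool.Agent.helper93.ADV.SpecU`, `set_option autoImplicit false`,
`namespace Pool.Agent.ADV`, `open Finset Pool.Agent.helper38.Neg Pool.Agent.helper55.NT Pool.Agent.LNB`, auxiliary lemmas prefixed `X_`,
theorem line as in the lock note (other rows only as hypotheses). Finish: land, note DONE + path, one line to helper93.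

THEOREM (block U). `K = 2^(r+1) - 1`. Every function with small circuits is predicted on every distribution with
advantage `1 / (2 ⌈(min u n + 1) / K⌉)` by a small circuit with at most `r` NOT gates which depend on the first `u` bits, or
by the negation of such a circuit; for the parity of the first `u` bits no circuit of any size has an
advantage `> K / (2 min u n)`; every inverse polynomial advantage gives P/Poly.

`Rel F m r G`: `Pool/Agent/helper55/NT/SL.lean` (if the functions in `F` are available, those in `G` can be computed with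
`m` further gates, `r` of them NOT gates). `T S k x` (`Win.lean`): the input `x` without the elements of `S` has at least `k` ones;
`dval` (`Dual.lean`): double rail evaluation. `LN.io u z`, `LN.SX`: `Pool/Agent/helper69/LN/{Defs,TDefs}.lean`. `LN.FewDep`, `LN.AgreeFrom`,
`LN.LocPat` and `LNB.FewDep`, ... have the same bodies (a proof of one is a proof of the other, by `exact`).
-/

set_option autoImplicit false

namespace Pool.Agent.ADV

open Finset Pool.Agent.helper38.Neg Pool.Agent.helper55.NT Pool.Agent.LNB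

/-- The function `f` on the inputs with `w, ..., w + K - 1` ones, `0` on those with less and `1` on those
with more ones. -/
def win (w K : ℕ) {n : ℕ} (f : Fn n) : Fn n := fun z => decide (w + K ≤ wt z) || (decide (w ≤ wt z) && f z)

/-- The same for the number of ones among the first `u` bits. -/
def winu (u w K : ℕ) {n : ℕ} (f : Fn n) : Fn n :=
  fun z => decide (w + K ≤ wtu u z) || (decide (w ≤ wtu u z) && f z)

/-- The number of windows of `2 ^ (r + 1) - 1` levels which are needed for the `min u n + 1` levels of the first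
`u` bits, i.e. the least integer `≥ (min u n + 1) / (2 ^ (r + 1) - 1)`. -/
def nwin (u r n : ℕ) : ℕ := (min u n + (2 ^ (r + 1) - 1)) / (2 ^ (r + 1) - 1)

/-- SLF (short-medium): slice functions of an ARBITRARY function (Berkowitz). Proof: if `wt x = k` then `T {i} k x = (k ≤ wt (rem {i} x))` is
exactly `!(x i)` (`rem_insert_wt`, `rem_insert_false` of `Win.lean`, `insert i ∅`), so the double rail evaluation with
`P i = x i`, `Q i = T {i} k` gives `C.val x o` (`dval_le`, `dval_ge`). So
`win k 1 f x = T ∅ (k+1) x || (T ∅ k x && (dval C x (fun i => T {i} k x) o).1)` for all `x` (if `wt x > k` both sides are `1`, if `wt x < k` both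
are `0`). The functions `T S k`, `#S ≤ 1`, and the variables: `F0_rel 1` (size `(n+1)^1 * (2 (n+2)^2)`); `Rel.dual` (size `2 s`); two gates.
Compare `W_succ`, `W_rel_step` (`b = 0`) in `Win.lean`. -/
def SLF_stmt : Prop :=
  ∀ (n s k : ℕ) (C : Circuit n s) (o : Fin (n + s)),
    Rel ∅ (2 * (n + 2) ^ 3 + 2 * s + 2) 0 {win k 1 fun x => C.val x o}

/-- WNF (medium). From SLF. `K = 2^(r+1) - 1`, `f x = C.val x o`. For `j ≥ 1` let `G j = win (k + j - 1) 1 f` for odd `j` and
`G j = win (k + j - 1) 1 (¬ f)` for even `j` (the circuit of `¬ f` has `s + 1` gates). `G j` is `0` on inputs with less than `k + j - 1` ones and `1` on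
inputs with more, so `G (j+2) x = 1` implies `G j x = 1` (even `G (j+1) x = 1` implies `G j x = 1`). Then
`win k K f x = G K x || ⋁_(i < 2^r - 1) (G (2i+1) x && !(G (2i+2) x))`: let `wt x = l`. If `l < k` all `G j` are `0`. If `l ≥ k + K` all `G j`,
`j ≤ K`, are `1` and both sides are `1`. If `l = k + j₀ - 1`, `1 ≤ j₀ ≤ K`: `G j = 1` for `j < j₀`, `G j = 0` for `j > j₀`, `G j₀ = f x` (odd) or `!(f x)` (even); in both
cases the right side is `f x`. The functions `G 1, ..., G K`: `Rel.biUnion`; the negations of `t i = G (2i+2)`, `i < 2^r - 1`: `inv_rel r`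
(`Sim.lean`: `4 * 2^r` gates, `r` NOT gates); then at most `3 * 2^r` AND/OR gates (induction on the number of terms). Size:
`K (2 (n+2)^3 + 2 (s+1) + 2) + 4 * 2^r + 3 * 2^r ≤ 2^(r+1) (2 (n+2)^3 + 2 s + 10)`. -/
def WNF_stmt : Prop :=
  ∀ (n s k r : ℕ) (C : Circuit n s) (o : Fin (n + s)),
    Rel ∅ (2 ^ (r + 1) * (2 * (n + 2) ^ 3 + 2 * s + 10)) r {win k (2 ^ (r + 1) - 1) fun x => C.val x o}

/-- WCR (short-medium). From WNF (and the theorems TTR: `Pool/Agent/helper45/LN/TTR.lean`, TSC: `Pool/Agent/helper28/LN/TSC.lean`, which you may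
import). On `n + n` inputs let `f' x = C.val (x ∘ Fin.castAdd n) o`: it has a circuit with `s` gates (rename the inputs:
`HasCost.rename` as in `Pool/Agent/helper19/LN/PNP.lean`, or by induction). `wt (LN.io u z) = wtu u z + (n - min u n)` (the last `n` bits of `io u z` are
`0` below `u` and `!(z i)` from `u` on). WNF on `n + n` inputs with `k = (n - min u n) + w` gives a list `L` (`Rel` with `L = []`, `SL.nil`) of at most
`2^(r+1) (2 (2n+2)^3 + 2 s + 10)` functions with at most `r` NOT gates; TTR: `L'` on `n` inputs, `SX u L' q`, `n + 1` more functions, contains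
`z ↦ win k K f' (io u z) = winu u w K f z`; TSC: a circuit with `FewDep u q`, and `q ≤ r` (FewDep is monotone in `r`). -/
def WCR_stmt : Prop :=
  ∀ (n s u r w : ℕ) (C : Circuit n s) (o : Fin (n + s)),
    ∃ s' ≤ 2 ^ (r + 1) * (2 * (2 * n + 2) ^ 3 + 2 * s + 10) + n + 1, ∃ (C' : Circuit n s') (o' : Fin (n + s')),
      FewDep u r C' ∧ ∀ z, C'.val z o' = winu u w (2 ^ (r + 1) - 1) (fun x => C.val x o) z

/-- AVG (short-medium). `m = min u n`, `N = (m + K) / K` (so `m + 1 ≤ N K`). For `z` let `w₀ = wtu u z / K < N` (`wtu u z ≤ m`). `u_w = winu u (wK) K f`,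
`v_w = ¬ winu u (wK) K (¬ f)`, `w < N`. If `w = w₀`: `u_w z = v_w z = f z`. If `w < w₀`: `u_w z = 1`, `v_w z = 0`; if `w > w₀`: `u_w z = 0`, `v_w z = 1`; so exactly one
of them is `f z`. Hence for every `z` the number of `w < N` with `u_w z = f z` plus the number of `w < N` with `v_w z = f z` is `N + 1`.
Sum over `z` with weights `D z`: the `2N` agreements have sum `N + 1`, so one is `≥ (N+1)/(2N) = 1/2 + 1/(2N)`; the agreement of `v_w` is `1 -` that of its negation. -/
def AVG_stmt : Prop :=
  ∀ (n u K : ℕ), 1 ≤ K → ∀ (f : Fn n) (D : (Fin n → Bool) → ℝ), IsDist D → ∃ w : ℕ,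
    1 / (2 * (((min u n + K) / K : ℕ) : ℝ)) ≤ adv D (fun x => f x = true) (winu u w K f) ∨
    1 / (2 * (((min u n + K) / K : ℕ) : ℝ)) ≤ adv D (fun x => f x = true) (winu u w K fun x => !(f x))

/-- UPR (short-medium). From WCR, AVG. Let `m = min u n`. If `2^r ≤ 2n + 2`: AVG with `K = 2^(r+1) - 1`, then WCR for `f` (size `s`) or for `¬ f` (size `s + 1`: add a NOT gate
to the circuit); `2^(r+1) ≤ 4n + 4`. If not, let `r'` be the least number with `m + 1 ≤ 2^(r'+1) - 1`; then `r' ≤ r`, `2^r' ≤ 2n + 2` and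
`nwin u r' n = 1 = nwin u r n`; `FewDep u r' C` implies `FewDep u r C`. -/
def UPR_stmt : Prop :=
  ∀ (n s u r : ℕ) (C : Circuit n s) (o : Fin (n + s)) (D : (Fin n → Bool) → ℝ), IsDist D →
    ∃ s' ≤ (4 * n + 4) * (2 * (2 * n + 2) ^ 3 + 2 * s + 12) + n + 1, ∃ (C' : Circuit n s') (o' : Fin (n + s')),
      FewDep u r C' ∧ 1 / (2 * (nwin u r n : ℝ)) ≤ adv D (fun x => C.val x o = true) fun x => C'.val x o'

/-- BST (medium): boosting. Multiplicative weights. Predictors `h_t = xor (b t) (g t)` with agreement `a ≥ 1/2 + γ` (`b t = 1` if the agreement of `g t` is less than `1/2`).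
`w_t(x) = ∏_(i < t) (1 - γ if h_i x is right, 1 + γ if not)`, `Φ_t = ∑ w_t > 0`, `D_t = w_t / Φ_t`, `g_t` the function for `D_t`.
`Φ_(t+1) = Φ_t (1 - γ (2a - 1)) ≤ Φ_t (1 - 2γ²)`, so `Φ_T ≤ 2^n (1 - 2γ²)^T`. Suppose that for some `x` the number `c` of right `h_i`
satisfies `2c ≤ T`. Then `w_T(x)² = (1-γ)^(2c) (1+γ)^(2T-2c) ≥ (1-γ)^T (1+γ)^T = (1 - γ²)^T` and
`w_T(x)² ≤ Φ_T² ≤ 4^n (1 - 2γ²)^(2T) < (1+γ²)^(2T) (1-2γ²)^(2T)`, but with `a = γ² ≤ 1/4`: `((1+a)(1-2a))² = (1 - a - 2a²)² ≤ (1-a)² ≤ 1 - a`: contradiction.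
(Build the list of the `g_t` by recursion on `T`, with the weights as invariant.) -/
def BST_stmt : Prop :=
  ∀ (n : ℕ) (f : (Fin n → Bool) → Prop) (P : Fn n → Prop) (γ : ℝ), 0 < γ → γ ≤ 1 / 2 →
    (∀ D : (Fin n → Bool) → ℝ, IsDist D → ∃ g, P g ∧ γ ≤ adv D f g) →
    ∀ T : ℕ, (2 : ℝ) ^ n < (1 + γ ^ 2) ^ T →
      ∃ (g : Fin T → Fn n) (b : Fin T → Bool), (∀ i, P (g i)) ∧
        ∀ x, ∃ S : Finset (Fin T), T < 2 * S.card ∧ ∀ i ∈ S, (xor (b i) (g i x) = true ↔ f x)

/-- GRB (short). Bernoulli: `(1 + γ²)^(q²) ≥ 1 + q² γ² ≥ 2` for `γ = 1/q`; so `(1 + γ²)^((n+1) q²) ≥ 2^(n+1) > 2^n`. -/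
def GRB_stmt : Prop :=
  ∀ (n q : ℕ), 1 ≤ q → (2 : ℝ) ^ n < (1 + (1 / (q : ℝ)) ^ 2) ^ ((n + 1) * q ^ 2)

/-- MJR (medium). `thr i j x` = at least `j` of `g 0 x, ..., g (i-1) x` are `1` (`i ≤ T`, `j ≤ T + 1`). `thr 0 0 = 1`, `thr 0 j = 0` for `j ≥ 1`, `thr (i+1) 0 = 1`,
`thr (i+1) (j+1) = thr i (j+1) ∨ (g i ∧ thr i j)`: two gates for each pair. Induction on `i` (all `j ≤ T + 1` together, `Rel.trans`, `Rel.biUnion`); compare `Ti_rel` in
`Pool/Agent/helper55/NT/Win.lean`. -/
def MJR_stmt : Prop :=
  ∀ (n T : ℕ) (g : Fin T → Fn n), Rel (Set.range g) (2 * (T + 2) ^ 2 + 2) 0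
    {fun x => decide (T < 2 * (univ.filter fun i => g i x = true).card)}

/-- MJC (medium). From MJR. First the `n` negated inputs (`n` NOT gates, `Rel.not`); with `P i x = x i`, `Q i x = !(x i)` the double rail evaluation
(`Rel.dual`, `dval_le`, `dval_ge`) computes `C.val x o` (first rail) and its negation (second rail) with `2 s` gates and no NOT gate, so (`Rel.biUnion`) all
`xor (b i) (g i)` with `2 S T` gates. MJR; `Rel.toCircuit`. `f x` holds iff more than half of them are `1`: if `f x` then they are `1` for `i ∈ S`; if not then they are `0` for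
`i ∈ S`, so at most `T - #S < T/2` are `1`. (All NOT counts are irrelevant: take them large.) -/
def MJC_stmt : Prop :=
  ∀ (n T S : ℕ) (f : (Fin n → Bool) → Prop) (g : Fin T → Fn n) (b : Fin T → Bool),
    (∀ i, ∃ s ≤ S, ∃ (C : Circuit n s) (o : Fin (n + s)), ∀ x, g i x = C.val x o) →
    (∀ x, ∃ S : Finset (Fin T), T < 2 * S.card ∧ ∀ i ∈ S, (xor (b i) (g i x) = true ↔ f x)) →
    ∃ s' ≤ n + T * (2 * S) + 2 * (T + 2) ^ 2 + 2, ∃ (C' : Circuit n s') (o' : Fin (n + s')), C'.Computes o' f

/-- BPP (medium). From BST, GRB, MJC. `q = p.eval n + 2`, `γ = 1/q ≤ 1/2`, `T = (n+1) q²`, `P g` = (`g` is computed by a circuit with at most `p.eval n` gates). The bound of MJC with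
`S = p.eval n` is a polynomial in `n`. -/
def BPP_stmt : Prop :=
  ∀ (P : CProp) (p : Polynomial ℕ) (A : Lang),
    HasAdv (fun n => p.eval n) P (fun n => 1 / (((p.eval n : ℕ) : ℝ) + 2)) A → InPPoly A

/-- TFU (medium): the characterisation of P/Poly. From UPR, BPP. 1 → 2: UPR for the circuit of `A n` with `s ≤ p(n)` gates, a polynomial. 2 → 3: `2 nwin ≤ 2 (n + 1) ≤ q(n) + 2` for
`q = 2 X` (`nwin u r n ≤ min u n + 1 ≤ n + 1`), `Few u r` implies `Any`. 3 → 1: if the size is at most `p(n)` and the advantage at least `1/(q(n) + 2)` then both hold with `p + q`; BPP. -/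
def TFU_stmt : Prop :=
  ∀ (u r : ℕ → ℕ) (A : Lang),
    [InPPoly A,
      PolyAdv (Few u r) (fun n => 1 / (2 * (nwin (u n) (r n) n : ℝ))) A,
      ∃ q : Polynomial ℕ, PolyAdv Any (fun n => 1 / (((q.eval n : ℕ) : ℝ) + 2)) A].TFAE

/-! ### The constant is exact: parity of the first `u` bits -/

/-- NRP (short): NOT-vectors do not reappear. Induction on `C`; for a gate `not i`: `notVals` of the shorter circuit are equal at `x` and `z`, so (induction) also at `y`; then all wires are
monotone along `x ≤ y ≤ z` (`val` is monotone between inputs with the same NOT-vector: second part), so wire `i` has at `y` the common value at `x` and `z`. -/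
def NRP_stmt : Prop :=
  (∀ (n s : ℕ) (C : Circuit n s) (x y z : Fin n → Bool), x ≤ y → y ≤ z → C.notVals x = C.notVals z →
    C.notVals y = C.notVals x) ∧
  ∀ (n s : ℕ) (C : Circuit n s) (x y : Fin n → Bool), x ≤ y → C.notVals x = C.notVals y →
    ∀ k, C.val x k = true → C.val y k = true

/-- DRP (short-medium). From NRP. Let `S` be the set of the `i < N` with `C.val (x i) o = 1`, `C.val (x (i+1)) o = 0`. For `i ∈ S` the NOT-vectors at `x i` and `x (i+1)` are different (NRP 2). The map
`S → range of the NOT-vectors`, `i ↦ notVals (x (i+1))`, is injective (`i < j` in `S`: if `notVals (x (i+1)) = notVals (x (j+1))` then `notVals (x j)` is the same (NRP 1, `i + 1 ≤ j`),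
contradiction) and its values are different from `notVals (x 0)` (NRP 1: otherwise `notVals (x i) = notVals (x (i+1))`). So `#S + 1 ≤ K`. Apply `LocPat` to the sequence
`i ↦ x (min i N)` or to `x` itself. -/
def DRP_stmt : Prop :=
  ∀ (n s u K N : ℕ) (C : Circuit n s) (o : Fin (n + s)), LocPat u K C →
    ∀ x : ℕ → (Fin n → Bool), Monotone x → (∀ i j, AgreeFrom u (x i) (x j)) →
      ((range N).filter fun i => C.val (x i) o = true ∧ C.val (x (i + 1)) o = false).card + 1 ≤ K

/-- ALN (short-medium). A 0-1 sequence `v 0, ..., v (N-1)`, `N` odd, with at most `d` descents (`v i = 1`, `v (i+1) = 0`, `i + 1 < N`) has at most `(N + 2d + 1)/2` agreements with `1,0,1,0,...,1`.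
Proof: (agreements) - (disagreements) on a run of constant values is at most `1`; there are at most `2d + 2` runs (ascents ≤ descents + 1); so the difference is `≤ 2d + 2`, and it is odd
(`N` odd), so `≤ 2d + 1`. For an induction: let `e_j = ∑_(i<j) ±1` (`+` for agreement); `e_j ≤ 1 + (number of changes before j)` and, if the last two signs..: or prove
`e_N + [parity corrections] ≤ changes + 1` by induction on `N` with the statement: `e_N ≤ c_N + (1 if the last value agrees, else 0)` where `c_N` = number of changes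
(a step without change flips agreement to disagreement and conversely; a step with a change keeps it). -/
def ALN_stmt : Prop :=
  ∀ (N d : ℕ) (v : ℕ → Bool), N % 2 = 1 →
    ((range (N - 1)).filter fun i => v i = true ∧ v (i + 1) = false).card ≤ d →
    2 * ((range N).filter fun i => (v i = true ↔ i % 2 = 0)).card ≤ N + 2 * d + 1 ∧
    2 * ((range N).filter fun i => ((!(v i)) = true ↔ i % 2 = 0)).card ≤ N + 2 * d + 1

/-- PAR (medium). From DRP, ALN. `m = min u n ≥ 1`, `N ∈ {m, m + 1}` odd. `x i` = the input whose first `min i m` bits are `1` and the others `0`; `x 0, ..., x (N-1)` are different, `wtu u (x i) = i`. `D` = uniform on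
`x 0, ..., x (N-1)`. `K ≥ 1` patterns: DRP: the outputs have at most `K - 1` descents; ALN with `d = K - 1`, both for the output (`b = 0`) and its negation (`b = 1`):
agreement `≤ (N + 2K - 1)/(2N) = 1/2 + (2K-1)/(2N) ≤ 1/2 + (2K-1)/(2m)`. -/
def PAR_stmt : Prop :=
  ∀ (n u : ℕ), 1 ≤ min u n → ∃ D : (Fin n → Bool) → ℝ, IsDist D ∧
    ∀ (s K : ℕ) (C : Circuit n s) (o : Fin (n + s)), LocPat u K C →
      adv D (fun z => wtu u z % 2 = 0) (fun z => C.val z o) ≤ (2 * (K : ℝ) - 1) / (2 * ((min u n : ℕ) : ℝ))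

/-- PPO (short-medium). The parity of the first `min u n` bits: `p_(i+1) = (p_i ∧ ¬ x_i) ∨ (¬ p_i ∧ x_i)`, at most `5` gates for each bit: a circuit with `5 n + 2` gates (induction on `i`), polynomial `5 X + 2`. -/
def PPO_stmt : Prop := ∀ u : ℕ → ℕ, InPPoly fun n z => wtu (u n) z % 2 = 0

end Pool.Agent.ADV
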