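import Pool.Agent.helper93.ADV.SpecU

/-! Project ADV, the numbers of boosting. -/

set_option autoImplicit false

namespace Pool.Agent.ADV

theorem GRB_x : GRB_stmt := by
  intro n q hq
  have hq0 : (0 : ℝ) < (q : ℝ) := by exact_mod_cast hq
  have h1 : (1 : ℝ) + ((q ^ 2 : ℕ) : ℝ) * (1 / (q : ℝ)) ^ 2 ≤ (1 + (1 / (q : ℝ)) ^ 2) ^ (q ^ 2) :=
    one_add_mul_le_pow (by have := sq_nonneg (1 / (q : ℝ)); linarith) _
  have h2 : (1 : ℝ) + ((q ^ 2 : ℕ) : ℝ) * (1 / (q : ℝ)) ^ 2 = 2 := by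
    push_cast
    field_simp
    norm_num
  rw [h2] at h1
  have h3 : (1 + (1 / (q : ℝ)) ^ 2) ^ ((n + 1) * q ^ 2) = ((1 + (1 / (q : ℝ)) ^ 2) ^ (q ^ 2)) ^ (n + 1) := by
    rw [← pow_mul, mul_comm]
  rw [h3]
  have h4 : (2 : ℝ) ^ (n + 1) ≤ ((1 + (1 / (q : ℝ)) ^ 2) ^ (q ^ 2)) ^ (n + 1) :=
    pow_le_pow_left₀ (by norm_num) h1 _
  refine lt_of_lt_of_le ?_ h4
  rw [pow_succ]
  have : (0 : ℝ) < 2 ^ n := by positivity
  linarith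

end Pool.Agent.ADV
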