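import Pool.Agent.helper93.ADV.SpecW

/-! Project ADV, row NRM: NOT-vectors do not reappear, for circuits with arbitrary monotone gates. -/

set_option autoImplicit false

namespace Pool.Agent.ADV

open Finset Pool.Agent.helper38.Neg Pool.Agent.helper55.NT Pool.Agent.LNB

theorem NRM_mono (n s : ℕ) (C : NG.MCircuit n s) (x y : Fin n → Bool) (hxy : x ≤ y)
    (h : C.notVals x = C.notVals y) : ∀ k, C.val x k = true → C.val y k = true := by
  induction C with
  | nil =>
    intro k hk
    have h1 := hxy k
    simp only [NG.MCircuit.val] at hk ⊢
    rw [hk] at h1
    exact Bool.eq_true_of_true_le h1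
  | @snoc s C g ih =>
    cases g with
    | not i =>
      simp only [NG.MCircuit.notVals] at h
      obtain ⟨h1, h2⟩ := List.append_inj' h rfl
      have h3 : (!(C.val x i)) = !(C.val y i) := by simpa using h2
      intro k
      refine Fin.lastCases ?_ (fun k => ?_) k
      · simp only [NG.MCircuit.val, Fin.snoc_last, NG.MGate.eval]
        rw [h3]
        exact fun h => h
      · simp only [NG.MCircuit.val, Fin.snoc_castSucc]
        exact ih h1 k
    | mono d φ hφ a =>
      simp only [NG.MCircuit.notVals] at h
      intro k
      refine Fin.lastCases ?_ (fun k => ?_) k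
      · simp only [NG.MCircuit.val, Fin.snoc_last, NG.MGate.eval]
        intro hk
        have h1 : (fun j => C.val x (a j)) ≤ fun j => C.val y (a j) := by
          intro j
          have h2 := ih h (a j)
          show C.val x (a j) ≤ C.val y (a j)
          revert h2
          cases C.val x (a j) <;> cases C.val y (a j) <;> simp
        have h3 := hφ h1
        rw [hk] at h3
        exact Bool.eq_true_of_true_le h3
      · simp only [NG.MCircuit.val, Fin.snoc_castSucc]
        exact ih h k

theorem NRM_conv (n s : ℕ) (C : NG.MCircuit n s) (x y z : Fin n → Bool) (hxy : x ≤ y) (hyz : y ≤ z)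
    (h : C.notVals x = C.notVals z) : C.notVals y = C.notVals x := by
  induction C with
  | nil => rfl
  | @snoc s C g ih =>
    cases g with
    | not i =>
      simp only [NG.MCircuit.notVals] at h ⊢
      obtain ⟨h1, h2⟩ := List.append_inj' h rfl
      have h3 : C.val x i = C.val z i := by simpa using h2
      have h4 := ih h1
      have h5 := NRM_mono n s C x y hxy h4.symm i
      have h6 := NRM_mono n s C y z hyz (h4.trans h1) i
      have h7 : C.val y i = C.val x i := by
        revert h3 h5 h6
        cases C.val x i <;> cases C.val y i <;> cases C.val z i <;> simp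
      rw [h4, h7]
    | mono d φ hφ a =>
      simp only [NG.MCircuit.notVals] at h ⊢
      exact ih h

theorem NRM : NRM_stmt := ⟨NRM_conv, NRM_mono⟩

end Pool.Agent.ADV
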