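import Pool.Agent.helper93.ADV.SpecW

/-! Project ADV, row PAM: parity of the first bits against circuits with arbitrary monotone gates. -/

set_option autoImplicit false

namespace Pool.Agent.ADV

open Finset Pool.Agent.helper38.Neg Pool.Agent.helper55.NT Pool.Agent.LNB

/-- The chain: the first `min i u` bits are one. -/
def PAM_x (n u i : ℕ) : Fin n → Bool := fun j => decide ((j : ℕ) < i ∧ (j : ℕ) < u)

/-- The uniform distribution on the first `N` members of a sequence. -/
noncomputable def PAM_D {n : ℕ} (x : ℕ → (Fin n → Bool)) (N : ℕ) : (Fin n → Bool) → ℝ := fun z =>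
  (((range N).filter fun i => x i = z).card : ℝ) / (N : ℝ)

theorem PAM_card {n : ℕ} (x : ℕ → (Fin n → Bool)) (N : ℕ) (P : (Fin n → Bool) → Prop) [DecidablePred P] :
    (∑ z, if P z then ((range N).filter fun i => x i = z).card else 0) =
      ((range N).filter fun i => P (x i)).card := by
  classical
  rw [Finset.card_filter]
  have h1 : ∀ z, (if P z then ((range N).filter fun i => x i = z).card else 0) =
      ∑ i ∈ range N, if x i = z then (if P (x i) then 1 else 0) else 0 := by
    intro z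
    by_cases hz : P z
    · rw [if_pos hz, Finset.card_filter]
      refine Finset.sum_congr rfl fun i _ => ?_
      by_cases h : x i = z
      · rw [if_pos h, if_pos h, if_pos (by rw [h]; exact hz)]
      · rw [if_neg h, if_neg h]
    · rw [if_neg hz]
      refine (Finset.sum_eq_zero fun i _ => ?_).symm
      by_cases h : x i = z
      · rw [if_pos h, if_neg (by rw [h]; exact hz)]
      · rw [if_neg h]
  rw [Finset.sum_congr rfl fun z _ => h1 z, Finset.sum_comm]
  refine Finset.sum_congr rfl fun i _ => ?_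
  rw [Finset.sum_ite_eq univ (x i) (fun _ => if P (x i) then 1 else 0), if_pos (mem_univ _)]

theorem PAM_dist {n : ℕ} (x : ℕ → (Fin n → Bool)) (N : ℕ) (hN : 0 < N) : IsDist (PAM_D x N) := by
  classical
  refine ⟨fun z => div_nonneg (Nat.cast_nonneg _) (Nat.cast_nonneg _), ?_⟩
  have h := PAM_card x N (fun _ => True)
  simp only [if_true, Finset.filter_true, card_range] at h
  have h2 : (∑ z, PAM_D x N z) = ((∑ z, ((range N).filter fun i => x i = z).card : ℕ) : ℝ) / (N : ℝ) := by
    unfold PAM_D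
    rw [← Finset.sum_div]
    push_cast
    rfl
  rw [h2, h]
  exact div_self (by exact_mod_cast hN.ne')

theorem PAM_agr {n : ℕ} (x : ℕ → (Fin n → Bool)) (N : ℕ) (f : (Fin n → Bool) → Prop) (g : (Fin n → Bool) → Bool)
    (Q : ℕ → Prop) [DecidablePred Q] (hQ : ∀ i < N, (g (x i) = true ↔ f (x i)) ↔ Q i) :
    agr (PAM_D x N) f g = (((range N).filter Q).card : ℝ) / (N : ℝ) := by
  classical
  have h := PAM_card x N (fun z => (g z = true ↔ f z))
  have h0 : ((range N).filter fun i => (g (x i) = true ↔ f (x i))) = (range N).filter Q := by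
    refine Finset.filter_congr fun i hi => ?_
    exact hQ i (mem_range.1 hi)
  rw [h0] at h
  rw [← h]
  unfold agr PAM_D
  push_cast
  rw [Finset.sum_div]
  refine Finset.sum_congr rfl fun z _ => ?_
  by_cases hz : (g z = true ↔ f z)
  · rw [if_pos hz, if_pos hz]
  · rw [if_neg hz, if_neg hz, zero_div]

theorem PAM_wtu (n u i : ℕ) (hi : i ≤ min u n) : wtu u (PAM_x n u i) = i := by
  unfold wtu
  have h1 : (univ.filter fun j : Fin n => (j : ℕ) < u ∧ PAM_x n u i j = true) =
      univ.filter fun j : Fin n => (j : ℕ) < i := by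
    refine Finset.filter_congr fun j _ => ?_
    unfold PAM_x
    have h2 := lt_of_lt_of_le (b := i) (c := u) (a := (j : ℕ))
    constructor
    · rintro ⟨_, h⟩
      exact (of_decide_eq_true h).1
    · intro h
      have h3 : (j : ℕ) < u := by omega
      exact ⟨h3, decide_eq_true ⟨h, h3⟩⟩
  rw [h1, Fin.card_filter_val_lt]
  omega

theorem PAM (hDRM : DRM_stmt) (hALN : ALN_stmt) : PAM_stmt := by
  classical
  intro n u
  obtain ⟨N, hN⟩ : ∃ N : ℕ, N = 2 * (min u n / 2) + 1 := ⟨_, rfl⟩
  have hNpos : 0 < N := by omega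
  have hNle : N ≤ min u n + 1 := by omega
  refine ⟨PAM_D (PAM_x n u) N, PAM_dist _ _ hNpos, ?_⟩
  intro s K C o hpat
  have hmono : Monotone (PAM_x n u) := by
    intro i j hij k
    unfold PAM_x
    by_cases h : (k : ℕ) < i ∧ (k : ℕ) < u
    · rw [decide_eq_true h, decide_eq_true ⟨lt_of_lt_of_le h.1 hij, h.2⟩]
    · rw [decide_eq_false h]
      exact Bool.false_le _
  have hagree : ∀ i j, AgreeFrom u (PAM_x n u i) (PAM_x n u j) := by
    intro i j k hk
    unfold PAM_x
    rw [decide_eq_false (fun h => absurd h.2 (not_lt.2 hk)), decide_eq_false (fun h => absurd h.2 (not_lt.2 hk))]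
  have h1 := hDRM n s u K (N - 1) C o hpat (PAM_x n u) hmono hagree
  obtain ⟨v, hv⟩ : ∃ v : ℕ → Bool, v = fun i => C.val (PAM_x n u i) o := ⟨_, rfl⟩
  have hvi : ∀ i, v i = C.val (PAM_x n u i) o := fun i => by rw [hv]
  have h2 : ((range (N - 1)).filter fun i => v i = true ∧ v (i + 1) = false).card ≤ K - 1 := by
    rw [hv]
    show ((range (N - 1)).filter fun i => C.val (PAM_x n u i) o = true ∧ C.val (PAM_x n u (i + 1)) o = false).card ≤ K - 1
    omega
  have hK : 1 ≤ K := by omega
  obtain ⟨h3, h4⟩ := hALN N (K - 1) v (by omega) h2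
  have h5 : agr (PAM_D (PAM_x n u) N) (fun z => wtu u z % 2 = 0) (fun z => C.val z o) =
      (((range N).filter fun i => (v i = true ↔ i % 2 = 0)).card : ℝ) / (N : ℝ) := by
    refine PAM_agr (PAM_x n u) N _ _ _ fun i hi => ?_
    have h6 : wtu u (PAM_x n u i) = i := PAM_wtu n u i (by omega)
    show (C.val (PAM_x n u i) o = true ↔ wtu u (PAM_x n u i) % 2 = 0) ↔ (v i = true ↔ i % 2 = 0)
    rw [h6, hvi]
  have h7 : ((range N).filter fun i => (v i = true ↔ i % 2 = 0)).card +
      ((range N).filter fun i => ((!(v i)) = true ↔ i % 2 = 0)).card = N := by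
    have h8 : ((range N).filter fun i => ((!(v i)) = true ↔ i % 2 = 0)) =
        (range N).filter fun i => ¬(v i = true ↔ i % 2 = 0) := by
      refine Finset.filter_congr fun i _ => ?_
      cases v i <;> simp
    rw [h8, Finset.card_filter_add_card_filter_not, card_range]
  obtain ⟨a, ha⟩ : ∃ a : ℕ, a = ((range N).filter fun i => (v i = true ↔ i % 2 = 0)).card := ⟨_, rfl⟩
  obtain ⟨a', ha'⟩ : ∃ a' : ℕ, a' = ((range N).filter fun i => ((!(v i)) = true ↔ i % 2 = 0)).card := ⟨_, rfl⟩
  rw [← ha] at h3 h5 h7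
  rw [← ha'] at h4 h7
  have hNr : (0 : ℝ) < (N : ℝ) := by exact_mod_cast hNpos
  have h9 : 2 * (a : ℝ) ≤ N + 2 * K - 1 := by
    have : 2 * a + 1 ≤ N + 2 * K := by omega
    have h10 : ((2 * a + 1 : ℕ) : ℝ) ≤ ((N + 2 * K : ℕ) : ℝ) := by exact_mod_cast this
    push_cast at h10
    linarith
  have h11 : (N : ℝ) ≤ 2 * a + 2 * K - 1 := by
    have : N + 1 ≤ 2 * a + 2 * K := by omega
    have h10 : ((N + 1 : ℕ) : ℝ) ≤ ((2 * a + 2 * K : ℕ) : ℝ) := by exact_mod_cast this
    push_cast at h10
    linarith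
  have h12 : (2 * (((min u n / 2 : ℕ) : ℝ)) + 1) = (N : ℝ) := by
    rw [hN]
    push_cast
    ring
  rw [h12]
  unfold adv
  rw [h5, abs_le]
  constructor
  · rw [neg_le_iff_add_nonneg]
    have h13 : (a : ℝ) / N - 1 / 2 + (2 * K - 1) / (2 * N) = (2 * a + 2 * K - 1 - N) / (2 * N) := by
      field_simp
      ring
    rw [h13]
    exact div_nonneg (by linarith) (by linarith)
  · rw [← sub_nonneg]
    have h13 : (2 * (K : ℝ) - 1) / (2 * N) - ((a : ℝ) / N - 1 / 2) = (N + 2 * K - 1 - 2 * a) / (2 * N) := by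
      field_simp
      ring
    rw [h13]
    exact div_nonneg (by linarith) (by linarith)

end Pool.Agent.ADV
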