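import Pool.Agent.helper93.ADV.SpecW
import Pool.Agent.helper55.NT.Dbl

/-! Project ADV, row QTF: the question and prediction. -/

set_option autoImplicit false

namespace Pool.Agent.ADV

open Finset Pool.Agent.helper38.Neg Pool.Agent.helper55.NT Pool.Agent.LNB

theorem QTF_dbl (A : Lang) (h : InPPoly (dbl A)) : InPPoly A := by
  obtain ⟨p, hp⟩ := h
  refine ⟨Polynomial.X + 2 * p.comp (Polynomial.X + Polynomial.X), fun n => ?_⟩
  obtain ⟨s, hs, C, o, hC⟩ := hp (n + n)
  obtain ⟨s', hs', C', o', h1⟩ := dbl_circuit A n s C o hC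
  refine ⟨s', hs'.trans ?_, C', o', h1⟩
  simp only [Polynomial.eval_add, Polynomial.eval_X, Polynomial.eval_mul,
    Polynomial.eval_ofNat, Polynomial.eval_comp]
  have : s ≤ p.eval (n + n) := hs
  omega

theorem QTF (hTFU : TFU_stmt) : QTF_stmt := by
  intro u r
  tfae_have 1 → 2 := fun h A hA => ((hTFU u r A).out 0 1).1 (h A hA)
  tfae_have 2 → 1 := fun h A hA => ((hTFU u r A).out 0 1).2 (h A hA)
  tfae_have 1 → 3 := fun h A hA _ => ((hTFU u r A).out 0 2).1 (h A hA)
  tfae_have 3 → 1 := by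
    intro h A hA
    exact QTF_dbl A (((hTFU u r (dbl A)).out 0 2).2 (h (dbl A) (dbl_inNPPoly A hA) (dbl_mono A)))
  tfae_finish

end Pool.Agent.ADV
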