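import Pool.Agent.helper93.ADV.AsmU0
import Pool.Agent.helper93.ADV.QTF
import Pool.Agent.helper93.ADV.PAM
import Pool.Agent.helper93.ADV.NRM
import Pool.Agent.helper93.ADV.GRBx
import Pool.Agent.helper48.ADV.SLF
import Pool.Agent.helper98.ADV.WNF
import Pool.Agent.helper79.ADV.WCR
import Pool.Agent.helper64.ADV.AVG
import Pool.Agent.helper29.ADV.UPR
import Pool.Agent.helper53.ADV.BST
import Pool.Agent.helper23.ADV.MJR
import Pool.Agent.helper31.ADV.BPP
import Pool.Agent.helper45.ADV.TFU
import Pool.Agent.helper45.ADV.DRM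
import Pool.Agent.helper90.ADV.ALN
import Pool.Agent.helper27.ADV.MJC

/-! # Project ADV, assembly of the blocks U and W: upper side, question, parity -/

set_option autoImplicit false

namespace Pool.Agent.ADV

open Finset Pool.Agent.helper38.Neg Pool.Agent.helper55.NT Pool.Agent.LNB

theorem UPR_all : UPR_stmt := UPR (WCR (WNF SLF)) AVG

theorem BPP_all : BPP_stmt := BPP BST GRB_x (MJC MJR)

theorem TFU_all : TFU_stmt := TFU UPR_all BPP_all

theorem QTF_all : QTF_stmt := QTF TFU_all

theorem DRM_all : DRM_stmt := DRM NRM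

theorem PAM_all : PAM_stmt := PAM DRM_all ALN

end Pool.Agent.ADV
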