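import Pool.Agent.helper93.ADV.SpecU

/-! # Project ADV, assembly of block U (type check of the composition) -/

set_option autoImplicit false

namespace Pool.Agent.ADV

open Finset Pool.Agent.helper38.Neg Pool.Agent.helper55.NT Pool.Agent.LNB

/-- The question in the form of the advantage. -/
theorem Q1_of_TFU (hTFU : TFU_stmt) (u r : ℕ → ℕ) :
    [∀ A, InNPPoly A → InPPoly A,
      ∀ A, InNPPoly A → PolyAdv (Few u r) (fun n => 1 / (2 * (nwin (u n) (r n) n : ℝ))) A,
      ∀ A, InNPPoly A → ∃ q : Polynomial ℕ, PolyAdv Any (fun n => 1 / (((q.eval n : ℕ) : ℝ) + 2)) A].TFAE := by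
  tfae_have 1 → 2 := fun h A hA => ((hTFU u r A).out 0 1).1 (h A hA)
  tfae_have 2 → 3 := fun h A hA => ((hTFU u r A).out 1 2).1 (h A hA)
  tfae_have 3 → 1 := fun h A hA => ((hTFU u r A).out 2 0).1 (h A hA)
  tfae_finish

end Pool.Agent.ADV
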