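import Pool.Agent.helper93.ADV.SpecU

/-!
# MP_069684_lc, project adv, block W: upper side for monotone languages, quasi-polynomial size, question, parity for all gates

RULES as in `Pool/Agent/helper93/ADV/SpecU.lean`, with `import Pool.Agent.helper93.ADV.SpecW`. `LN.` theorems: TSI
(`Pool/Agent/helper69/LN/TSI.lean`), TFF (`helper65/LN/TFF.lean`), TTR (`helper45/LN/TTR.lean`), TSC (`helper28/LN/TSC.lean`), TFO (`helper96/LN/TFO.lean`), the model of the
proofs: TUP (`helper43/LN/TUP.lean`). They may be imported.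
-/

set_option autoImplicit false

namespace Pool.Agent.ADV

open Finset Pool.Agent.helper38.Neg Pool.Agent.helper55.NT Pool.Agent.LNB

/-- WMF (short-medium). From TSI (import it): `h` with `Rel ∅ (18 b (s+1) (n+2)^(b+2)) r {h}`, `h x = f x` if `k ≤ wt x < k + b 2^r`. So
`win k (b 2^r) f x = T ∅ (k + b 2^r) x || (T ∅ k x && h x)`; `T_rel ∅` (`2 (n+2)^2` gates, no NOT gate), `rem_empty`, two gates. -/
def WMF_stmt : Prop :=
  ∀ (n s k b r : ℕ) (f : Fn n), Mon f → ∀ (C : Circuit n s) (o : Fin (n + s)), (∀ x, C.val x o = f x) →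
    1 ≤ b → 2 ^ r ≤ 2 * n + 2 →
    Rel ∅ (18 * b * (s + 1) * (n + 2) ^ (b + 2) + 2 * (n + 2) ^ 2 + 2) r {win k (b * 2 ^ r) f}

/-- WMC (medium). From WMF. As TUP (`helper43/LN/TUP.lean`): TFF gives a monotone `g` on `n + n` inputs with `g (io u z) = f z` and a circuit with
`s + 5n + 5` gates; WMF for `g`, `k = (n - min u n) + w`; `wt (io u z) = wtu u z + (n - min u n)`, so `win k K g (io u z) = winu u w K f z`; TTR (`n + 1` more gates), TSC,
TFO (`FewDep` is monotone in `r`). -/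
def WMC_stmt : Prop :=
  ∀ (n s u b r w : ℕ) (C : Circuit n s) (o : Fin (n + s)), MonoIn u (fun x => C.val x o = true) → 1 ≤ b → 2 ^ r ≤ 4 * n + 2 →
    ∃ s' ≤ 18 * b * (s + 5 * n + 6) * (n + n + 2) ^ (b + 2) + 2 * (n + n + 2) ^ 2 + n + 3,
      ∃ (C' : Circuit n s') (o' : Fin (n + s')), FewDep u r C' ∧
        ∀ z, C'.val z o' = winu u w (b * 2 ^ r) (fun x => C.val x o) z

/-- AV2 (short-medium). `N = m / K + 1`, `m = min u n`, so `m + 1 ≤ N K`. `u_j = winu u (jK) K f`, `j < N`; `t_j = winu u (jK) K 0`, `j < N - 1` (`t_j z = 1` iff `(j+1) K ≤ wtu u z`). Let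
`j₀ = wtu u z / K`. `u_j z = 1` for `j < j₀`, `f z` for `j = j₀`, `0` for `j > j₀`; `t_j z = 1` iff `j < j₀`. Exactly one of `u_j z`, `¬ t_j z` is `f z` for `j < j₀`; exactly one
of `u_(j+1) z`, `¬ t_j z` for `j₀ ≤ j < N - 1`; and `u_(j₀) z = f z`: together `N` of the `2N - 1` predictors `u_j`, `¬ t_j` are right at `z`. So one has agreement
`≥ N/(2N-1) = 1/2 + 1/(4N-2)`. (`N = 1`: agreement 1.) -/
def AV2_stmt : Prop :=
  ∀ (n u K : ℕ), 1 ≤ K → ∀ (f : Fn n) (D : (Fin n → Bool) → ℝ), IsDist D → ∃ w : ℕ,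
    1 / (4 * ((min u n / K : ℕ) : ℝ) + 2) ≤ adv D (fun x => f x = true) (winu u w K f) ∨
    1 / (4 * ((min u n / K : ℕ) : ℝ) + 2) ≤ adv D (fun x => f x = true) (winu u w K fun _ => false)

/-- UP2 (short-medium). From WMC, AV2. `f x = C.val x o`. If `2^r ≤ 4n + 2`: AV2 with `K = b 2^r`; WMC for `C`, or for the circuit `Circuit.snoc Circuit.nil (Gate.const false)` (`s = 1`, `MonoIn` is
clear). If not, let `r'` be the least number with `min u n + 1 ≤ 2^r'`: `2^r' ≤ 2n + 2`, `r' ≤ r`, `min u n / (b 2^r') = 0 = min u n / (b 2^r)`; TFO. -/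
def UP2_stmt : Prop :=
  ∀ (n s u b r : ℕ) (C : Circuit n s) (o : Fin (n + s)), MonoIn u (fun x => C.val x o = true) → 1 ≤ b →
    ∀ D : (Fin n → Bool) → ℝ, IsDist D →
    ∃ s' ≤ 18 * b * (s + 5 * n + 7) * (n + n + 2) ^ (b + 2) + 2 * (n + n + 2) ^ 2 + n + 3,
      ∃ (C' : Circuit n s') (o' : Fin (n + s')), FewDep u r C' ∧
        1 / (4 * ((min u n / (b * 2 ^ r) : ℕ) : ℝ) + 2) ≤ adv D (fun x => C.val x o = true) fun x => C'.val x o'

/-- PB2 (short-medium): monotone languages, polynomial size. From UP2. The size bound of UP2 for a fixed `b` is a polynomial in `n` (`s ≤ p(n)`). -/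
def PB2_stmt : Prop :=
  ∀ (u r : ℕ → ℕ) (b : ℕ), 1 ≤ b → ∀ A : Lang, InPPoly A → (∀ n, MonoIn (u n) (A n)) →
    PolyAdv (Few u r) (fun n => 1 / (4 * ((min (u n) n / (b * 2 ^ r n) : ℕ) : ℝ) + 2)) A

/-- QUA (medium): monotone languages, quasi-polynomial size. From UP2. `b = 6 c lg n ^ c + 1`, `x = min (u n) n / (b 2^r n)`. If `x = 0` the advantage is `1/2 ≥ γ n`. If `x ≥ 1`: `4x + 2 ≤ 6x ≤
6m/(b 2^r)`, so `1/(4x+2) ≥ b 2^r/(6m) ≥ c lg n ^ c 2^r / m ≥ γ n` (`m = min (u n) n ≥ 1`). Size: `s ≤ 2^(k lg n ^ k)`, `n + n + 2 ≤ 2^(2 lg n + 2)`, `b ≤ 7 c' lg n ^ c'`: the bound is at most `2^(k' lg n ^ k')`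
for a large `k'`; as in `quasiNots_of` (`helper55/NT/Threshold.lean`) and `quasi_of_dbl` (`helper69/LN/TAll.lean`), or `TQC` (`helper25/LN/TQC.lean`). -/
def QUA_stmt : Prop :=
  ∀ (u r : ℕ → ℕ) (γ : ℕ → ℝ),
    (∃ c : ℕ, ∀ n, γ n * ((min (u n) n : ℕ) : ℝ) ≤ c * (lg n : ℝ) ^ c * 2 ^ r n) → (∀ n, γ n ≤ 1 / 2) →
    ∀ A : Lang, InQuasi A → (∀ n, MonoIn (u n) (A n)) → QuasiAdv (Few u r) γ A

/-- QTF (short-medium): the question. From TFU. 1 → 2, 1 → 3: TFU. 2 → 1: TFU. 3 → 1: for `A` in NP/Poly the language `dbl A` is in NP/Poly with monotone slices (`dbl_inNPPoly`, `dbl_mono`), so it is in P/Poly by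
TFU (3 → 1), and then `A` is (`dbl_circuit`; the last part of the proof of `poly_tfae` in `Pool/Agent/helper69/LN/TAll.lean`). -/
def QTF_stmt : Prop :=
  ∀ u r : ℕ → ℕ,
    [∀ A, InNPPoly A → InPPoly A,
      ∀ A, InNPPoly A → PolyAdv (Few u r) (fun n => 1 / (2 * (nwin (u n) (r n) n : ℝ))) A,
      ∀ A, InNPPoly A → (∀ n, Monotone (A n)) →
        ∃ q : Polynomial ℕ, PolyAdv Any (fun n => 1 / (((q.eval n : ℕ) : ℝ) + 2)) A].TFAE

/-! ### Parity, for circuits of NOT gates and arbitrary monotone gates -/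

/-- NRM (short): as NRP, for `MCircuit` (`Pool/Agent/helper64/NG/Defs.lean`): for a gate `mono d φ hφ a` use that `φ` is monotone. -/
def NRM_stmt : Prop :=
  (∀ (n s : ℕ) (C : NG.MCircuit n s) (x y z : Fin n → Bool), x ≤ y → y ≤ z → C.notVals x = C.notVals z →
    C.notVals y = C.notVals x) ∧
  ∀ (n s : ℕ) (C : NG.MCircuit n s) (x y : Fin n → Bool), x ≤ y → C.notVals x = C.notVals y →
    ∀ k, C.val x k = true → C.val y k = true

/-- DRM (short-medium): as DRP, for `MCircuit`. From NRM. Let `S` be the set of the `i < N` with `C.val (x i) o = 1`, `C.val (x (i+1)) o = 0`. For `i ∈ S` the NOT-vectors at `x i` and `x (i+1)` are different (NRM 2). The map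
`i ↦ notVals (x (i+1))` on `S` is injective (`i < j` in `S`: if `notVals (x (i+1)) = notVals (x (j+1))` then `notVals (x j)` is the same (NRM 1, `i + 1 ≤ j`), contradiction) and its values are different from
`notVals (x 0)`. So `#S + 1 ≤ K` (all values are in the range of the NOT-vectors of the sequence). -/
def DRM_stmt : Prop :=
  ∀ (n s u K N : ℕ) (C : NG.MCircuit n s) (o : Fin (n + s)), C.LocPat u K →
    ∀ x : ℕ → (Fin n → Bool), Monotone x → (∀ i j, AgreeFrom u (x i) (x j)) →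
      ((range N).filter fun i => C.val (x i) o = true ∧ C.val (x (i + 1)) o = false).card + 1 ≤ K

/-- PAM (medium): as PAR, for `MCircuit` (any number of gates, any fan-in), in the sharp form. From DRM, ALN. `m = min u n`, `N = 2 (m/2) + 1 ∈ {m, m + 1}` is odd. `x i` = the input whose first `min i m`
bits are `1` and the others `0`; `wtu u (x i) = i` for `i ≤ m`. `D z = #{i < N : x i = z} / N`. DRM: the outputs have at most `K - 1` descents; ALN with `d = K - 1`: the agreement of the output and of its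
negation with the parity is at most `(N + 2K - 1)/(2N) = 1/2 + (2K-1)/(2N)`. -/
def PAM_stmt : Prop :=
  ∀ (n u : ℕ), ∃ D : (Fin n → Bool) → ℝ, IsDist D ∧
    ∀ (s K : ℕ) (C : NG.MCircuit n s) (o : Fin (n + s)), C.LocPat u K →
      adv D (fun z => wtu u z % 2 = 0) (fun z => C.val z o) ≤
        (2 * (K : ℝ) - 1) / (2 * (2 * ((min u n / 2 : ℕ) : ℝ) + 1))

end Pool.Agent.ADV
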